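import Pool.Agent.Run7.h872.LS.Main

/-!
Miller's question: a countable linear order whose degree spectrum contains every high degree and
contains no low degree.
-/

namespace Pool.Agent.Results.MP_79f3e7_lc.HighNotLow

open Pool.Agent.Helper578.JD Pool.Agent.Helper578.JD.Defs
open Run7.h872.LS (IsCopyOn graph)

/-- The degrees of the copies of `L` with universe `ℕ`. -/
def SpecOmega (L : Type) [LT L] : Set TuringDegree :=
  {d | ∃ r : ℕ → ℕ → Prop, IsCopyOn L Set.univ r ∧ d = deg (graph r)}

/-- The degrees of the copies of `L` whose universe is some subset of `ℕ`. -/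
def SpecSub (L : Type) [LT L] : Set TuringDegree :=
  {d | ∃ (D : Set ℕ) (r : ℕ → ℕ → Prop), IsCopyOn L D r ∧ d = deg (graph r)}

/-- The high degrees: degrees below `0'` whose jump is `0''`. -/
def High : Set TuringDegree :=
  {d | ∃ A : Set ℕ, d = deg A ∧ TuringReducible (chi A) (chi (jump ∅)) ∧
    deg (jump A) = deg (jump (jump ∅))}

/-- The low degrees: degrees below `0'` whose jump is `0'`. -/
def Low : Set TuringDegree :=
  {d | ∃ A : Set ℕ, d = deg A ∧ TuringReducible (chi A) (chi (jump ∅)) ∧
    deg (jump A) = deg (jump ∅)}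

/-- There is a countable linear order such that every high degree is the degree of one of its
copies with universe `ℕ`, while no copy with universe a subset of `ℕ` has low degree. -/
theorem result : ∃ (L : Type) (_ : LinearOrder L), Countable L ∧
    High ⊆ SpecOmega L ∧ ∀ d ∈ SpecSub L, d ∉ Low := by
  refine ⟨Run7.h872.LS.Ord, inferInstance, inferInstance, ?_, ?_⟩
  · rintro d ⟨A, rfl, -, h⟩
    exact Run7.h872.LS.high_part (Run7.h872.LS.jump_mono (Run7.h872.LS.deg_eq.1 h).2)
  · rintro d ⟨D, r, hr, rfl⟩ ⟨A, h1, -, h2⟩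
    have h3 := Run7.h872.LS.deg_eq.1 h1
    have h4 := Run7.h872.LS.deg_eq.1 h2
    exact Run7.h872.LS.low_part hr ((Run7.h872.LS.jump_mono h3.1).trans h4.1)

end Pool.Agent.Results.MP_79f3e7_lc.HighNotLow
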