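import Pool.Agent.Run7.h872.WD.Asm
import Pool.Agent.Run7.h872.WD.VAL
import Pool.Agent.Run7.h872.WD.MOM

/-!
# The non-BCH triple-error-correcting code has the weight distribution of the BCH code

Let `t ≥ 2`, `m = 2 t + 1`. The code `C_t` of length `2^m - 1` with the generator polynomial
`M^(1) M^(r) M^(s)`, `r = 1 + 2^(t-1)`, `s = 1 + 2^t`, has the same weight distribution as the
triple-error-correcting BCH code `B_t` with the generator polynomial `M^(1) M^(3) M^(5)`: for every
`w` they have the same number of words of weight `w`. This is the positive answer to Q1, for all `t`.
(With `MP_68eb4a_lc.NonEquivalence` of the starting files, which shows that the codes are not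
equivalent for `t ≥ 3`, it follows that for all `t ≥ 3` there are two inequivalent codes with the same
weight distribution, so Q2 has its conjectured answer without condition.)

Proof. For `v = (a, b, c)` let `S (v)` be the sum of `(-1)^Tr (a x + b x^e + c x^f)` over all `x` in
the field, with `(e, f) = (r, s)` or `(3, 5)`.
(1) The number of words of weight `w` of the code with the zeros `α, α^e, α^f` is the sum of
`G_w (S (v))` over all `v`, divided by `2^(3 m)`, where the function `G_w` does not depend on `e, f`.
(2) Both exponents are `1` plus a power of two, so `S (v)^2` is `0` or `2^m` times the number of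
elements of the radical of the quadratic form, a power of `2`; a linearized polynomial shows that it
is at most `8` for `C_t` and at most `16` for `B_t`. As `m` is odd, `S (v)` is one of the five
numbers `0, ± 2^(t+1), ± 2^(t+2)`, for all `v ≠ 0`.
(3) The sums of `S (v)^k` over all `v`, `k ≤ 4`, are the same for both codes: they count the
solutions of `∑ x_i = ∑ x_i^e = ∑ x_i^f = 0` in `k` unknowns, and all of them are trivial, because
`x^s` and `x^3` are almost perfect nonlinear.
(4) On the five numbers, `G_w` is a polynomial of degree at most `4`.

The definitions `codeC`, `codeB` are those of the starting file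
`Pool/Agent/H523R2/CycDefs.lean`: `cyclicCode n g` consists of the words `c` such that the class of
`g` divides the class of `c_0 + c_1 X + ⋯` in `GF(2)[X]/(X^n - 1)`, and `M^(i)` is the minimal polynomial
of `α^i`.

Authors: helper872 (interface, CNT, assembly), helper727 (VAL), helper352 (MOM).
-/

set_option autoImplicit false

namespace Pool.Agent.Results.MP_68eb4a_lc.SameWeightDistribution

open Pool.Agent.H523R2

/-- The number `A_w` of the words of weight `w` of a binary code of length `n`. -/
noncomputable def numWeight {n : ℕ} (C : Set (Fin n → ZMod 2)) (w : ℕ) : ℕ :=
  Set.ncard {c : Fin n → ZMod 2 | c ∈ C ∧ hammingNorm c = w}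

/-- **The codes `C_t` and `B_t` have the same weight distribution, for all `t ≥ 2`** and all primitive
elements `α` of the field with `2^(2t+1)` elements. -/
theorem result (t : ℕ) (ht : 2 ≤ t) (K : Type) [Field K] [Fintype K] [Algebra (ZMod 2) K]
    (hK : Fintype.card K = 2 ^ (2 * t + 1)) (α : K) (hα : orderOf α = 2 ^ (2 * t + 1) - 1) (w : ℕ) :
    numWeight (codeC α t) w = numWeight (codeB α t) w :=
  Run7.h872.WD.main Run7.h727.WD.t_VAL Run7.h352.WD.t_MOM t ht K hK α hα w

end Pool.Agent.Results.MP_68eb4a_lc.SameWeightDistribution
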